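import Pool.Agent.H867R4.NLower

set_option autoImplicit false

namespace Pool.Agent.H38R3.MH

open Finset
open Pool.Agent.H541R2 (rd mv mv_le le_mv gsign mu mu_nonneg IsCyl isCyl_univ cyl_card)
open Pool.Agent.H867R4

variable {k : ℕ} {Q : Type}

/-- Some head is at a multiple of `D`. -/
def Mark (D : ℕ) (c : NCfg k Q) : Prop := ∃ i, D ∣ c.p i

/-- Acceptance along a chain of `R` phases through configurations in `K` and a last phase to an
accepting configuration. -/
def AccS (C : Code Q) (M : NMach (Fin 4) k Q) {g N : ℕ} (K : Finset (NCfg k Q))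
    (b : Fin g → Fin N → Bool) : ℕ → NCfg k Q → Prop
  | 0, c => ∃ r : Fin g, ∃ d, d.q ∈ M.F ∧ Phase C M b r c d
  | (R + 1), c => ∃ r : Fin g, ∃ d ∈ K, Phase C M b r c d ∧ AccS C M K b R d

theorem AccS.mono {C : Code Q} {M : NMach (Fin 4) k Q} {g N : ℕ} {K : Finset (NCfg k Q)}
    {b : Fin (g + 1) → Fin N → Bool} {R : ℕ} {c : NCfg k Q} (hc : c ∈ K) (h : AccS C M K b R c) :
    AccS C M K b (R + 1) c :=
  ⟨0, c, hc, Free.refl c, h⟩

theorem AccS.mono_add {C : Code Q} {M : NMach (Fin 4) k Q} {g N : ℕ} {K : Finset (NCfg k Q)}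
    {b : Fin (g + 1) → Fin N → Bool} {R : ℕ} {c : NCfg k Q} (hc : c ∈ K) (h : AccS C M K b R c)
    (e : ℕ) : AccS C M K b (e + R) c := by
  induction e with
  | zero => rw [Nat.zero_add]; exact h
  | succ e ih =>
    have := AccS.mono hc ih
    rwa [show e + R + 1 = e + 1 + R by ring] at this

theorem close_div {D p p' : ℕ} (hD : 0 < D) (h : p ≤ p' + 1) : p / D ≤ p' / D + 1 := by
  calc p / D ≤ (p' + D) / D := Nat.div_le_div_right (by omega)
    _ = p' / D + 1 := Nat.add_div_right _ hD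

theorem same_div {D p p' : ℕ} (h1 : p ≤ p' + 1) (h2 : p' ≤ p + 1) (h3 : ¬ D ∣ p)
    (h4 : ¬ D ∣ p') : p / D = p' / D := by
  have hc : p = p' ∨ p = p' + 1 ∨ p' = p + 1 := by omega
  rcases hc with rfl | rfl | rfl
  · rfl
  · rw [Nat.succ_div, if_neg h3, Nat.add_zero]
  · rw [Nat.succ_div, if_neg h4, Nat.add_zero]

/-- If no head is at a marker strictly between the times `t` and `t + m`, then the computation between
these times is a phase. -/
theorem gap (C : Code Q) (M : NMach (Fin 4) k Q) {N : ℕ} (hN : 1 ≤ N)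
    (b : Fin (3 * k + 1) → Fin N → Bool) {ρ : ℕ → NCfg k Q} (t m : ℕ)
    (h1 : ∀ s, t ≤ s → s < t + m → M.Step (C.W b) (ρ s) (ρ (s + 1)))
    (h2 : ∀ i, (ρ t).p i ≤ (C.W b).length + 1)
    (h3 : ∀ s, t < s → s < t + m → ¬ Mark (N * (C.x₁.length + 1) + 1) (ρ s)) :
    ∃ r, Phase C M b r (ρ t) (ρ (t + m)) := by
  by_cases hm : m ≤ 1
  · exact phase_short C M b t m (by nlinarith) h1 h2
  obtain ⟨D, hD⟩ : ∃ D, D = N * (C.x₁.length + 1) + 1 := ⟨_, rfl⟩
  have hDpos : 0 < D := by omega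
  rw [← hD] at h3
  have hcl : ∀ s, t ≤ s → s < t + m → ∀ i, (ρ s).p i ≤ (ρ (s + 1)).p i + 1 ∧
      (ρ (s + 1)).p i ≤ (ρ s).p i + 1 := by
    intro s hs hs' i
    obtain ⟨e, rfl⟩ := Nat.exists_eq_add_of_le hs
    have hb : ∀ i, (ρ (t + e)).p i ≤ (C.W b).length + 1 := fun i =>
      (pos_close e (fun s hs hs'' => h1 s hs (by omega)) h2 i).2.2
    obtain ⟨a1, a2, _⟩ := pos_close (t := t + e) 1 (fun s hs hs'' => h1 s (by omega) (by omega)) hb i
    exact ⟨a2, a1⟩
  have hconst : ∀ e, t + 1 + e < t + m → ∀ i, (ρ (t + 1 + e)).p i / D = (ρ (t + 1)).p i / D := by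
    intro e
    induction e with
    | zero => intro _ i; rfl
    | succ e ih =>
      intro he i
      rw [← ih (by omega) i]
      obtain ⟨a1, a2⟩ := hcl (t + 1 + e) (by omega) (by omega) i
      refine (same_div a1 a2 ?_ ?_).symm
      · intro hd
        exact h3 (t + 1 + e) (by omega) (by omega) ⟨i, hd⟩
      · intro hd
        exact h3 (t + 1 + e + 1) (by omega) (by omega) ⟨i, hd⟩
  obtain ⟨r, hr⟩ := exists_row (fun (i : Fin k) (e : Fin 3) => (ρ (t + 1)).p i / D + e.val - 1)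
  refine ⟨r, ?_⟩
  unfold Phase
  have hW := C.W_split b r
  apply free_of_out m t
  · intro s hs hs'
    rw [← hW]
    exact h1 s hs hs'
  · intro s hs hs' i
    apply out_of_block
    rw [← hD]
    intro hblk
    have e0 := hr i 0
    have e1 := hr i 1
    have e2 := hr i 2
    simp only [Fin.val_zero, Fin.val_one, Fin.val_two] at e0 e1 e2
    have hq : (ρ s).p i / D ≤ (ρ (t + 1)).p i / D + 1 ∧ (ρ (t + 1)).p i / D ≤ (ρ s).p i / D + 1 := by
      by_cases hst : s = t
      · subst hst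
        obtain ⟨a1, a2⟩ := hcl s le_rfl (by omega) i
        exact ⟨close_div hDpos a1, close_div hDpos a2⟩
      · by_cases hsm : s = t + m
        · obtain ⟨a1, a2⟩ := hcl (t + 1 + (m - 2)) (by omega) (by omega) i
          have e3 : t + 1 + (m - 2) + 1 = t + m := by omega
          rw [e3] at a1 a2
          have := hconst (m - 2) (by omega) i
          rw [← this, hsm]
          exact ⟨close_div hDpos a2, close_div hDpos a1⟩
        · have := hconst (s - t - 1) (by omega) i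
          rw [show t + 1 + (s - t - 1) = s by omega] at this
          omega
    omega

/-- One piece gives at most two phases. -/
theorem piece_step {C : Code Q} {M : NMach (Fin 4) k Q} {g N : ℕ} {K : Finset (NCfg k Q)}
    {b : Fin (g + 1) → Fin N → Bool} {ρ : ℕ → NCfg k Q} {T D : ℕ}
    (hgap : ∀ t t', t ≤ t' → t' ≤ T → (∀ s, t < s → s < t' → ¬ Mark D (ρ s)) →
      ∃ r, Phase C M b r (ρ t) (ρ t'))
    (hK : ∀ s, s ≤ T → Mark D (ρ s) → ρ s ∈ K)
    {a a' R : ℕ} (haa : a ≤ a') (ha' : a' ≤ T)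
    (hPh : ∀ f l, a ≤ f → f ≤ l → l ≤ a' → ∃ r, Phase C M b r (ρ f) (ρ l))
    (hnext : ∀ t', t' ≤ a' → ρ t' ∈ K → (∀ s, t' < s → s < a' → ¬ Mark D (ρ s)) →
      AccS C M K b R (ρ t'))
    {t : ℕ} (hta : t ≤ a) (htK : ρ t ∈ K) (htm : ∀ s, t < s → s < a → ¬ Mark D (ρ s)) :
    AccS C M K b (2 + R) (ρ t) := by
  classical
  by_cases h : ∃ s, a ≤ s ∧ s ≤ a' ∧ Mark D (ρ s)
  · obtain ⟨f, ⟨hf1, hf2, hf3⟩, hfmin⟩ : ∃ f, (a ≤ f ∧ f ≤ a' ∧ Mark D (ρ f)) ∧
        ∀ s, s < f → ¬ (a ≤ s ∧ s ≤ a' ∧ Mark D (ρ s)) :=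
      ⟨Nat.find h, Nat.find_spec h, fun s hs => Nat.find_min h hs⟩
    obtain ⟨l, hl1, hl2, hl3, hl4⟩ : ∃ l, f ≤ l ∧ l ≤ a' ∧ Mark D (ρ l) ∧
        ∀ s, l < s → s ≤ a' → ¬ Mark D (ρ s) := by
      refine ⟨Nat.findGreatest (fun s => Mark D (ρ s)) a', Nat.le_findGreatest hf2 hf3,
        Nat.findGreatest_le _, ?_, fun s hs hs' => Nat.findGreatest_is_greatest hs hs'⟩
      exact Nat.findGreatest_spec (P := fun s => Mark D (ρ s)) hf2 hf3
    obtain ⟨r₁, hr₁⟩ := hgap t f (by omega) (by omega) (by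
      intro s hs hs' hm
      by_cases hsa : s < a
      · exact htm s hs hsa hm
      · exact hfmin s hs' ⟨by omega, by omega, hm⟩)
    obtain ⟨r₂, hr₂⟩ := hPh f l hf1 hl1 hl2
    rw [show 2 + R = R + 1 + 1 by ring]
    refine ⟨r₁, ρ f, hK f (by omega) hf3, hr₁, r₂, ρ l, hK l (by omega) hl3, hr₂, ?_⟩
    exact hnext l hl2 (hK l (by omega) hl3) (fun s hs hs' => hl4 s hs hs'.le)
  · apply AccS.mono_add htK
    apply hnext t (by omega) htK
    intro s hs hs' hm
    by_cases hsa : s < a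
    · exact htm s hs hsa hm
    · exact h ⟨s, by omega, hs'.le, hm⟩

/-- From a computation to a chain of phases through marked configurations. -/
theorem accS_of_run (C : Code Q) (M : NMach (Fin 4) k Q) {N : ℕ} (hN : 1 ≤ N)
    (K : Finset (NCfg k Q)) (b : Fin (3 * k + 1) → Fin N → Bool)
    (hK : ∀ c : NCfg k Q, (∀ i, c.p i ≤ (C.W b).length + 1) →
      Mark (N * (C.x₁.length + 1) + 1) c → c ∈ K)
    (hinit : (⟨M.q₀, fun _ => 0⟩ : NCfg k Q) ∈ K)
    (G n : ℕ) (hG : n ≤ G * (N * (C.x₁.length + 1))) (hG1 : 1 ≤ G)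
    {T I : ℕ} {ρ : ℕ → NCfg k Q} (hρ : M.AccRun (C.W b) T ρ) (hP : Pieces n T I ρ) :
    AccS C M K b (2 * G * I) (ρ 0) := by
  obtain ⟨h0, hst, hF⟩ := hρ
  obtain ⟨τ, ht0, htI, htj⟩ := hP
  have hmono : ∀ j, j ≤ I → τ j ≤ T := by
    have key : ∀ d j, j + d = I → τ j ≤ T := by
      intro d
      induction d with
      | zero => intro j hj; rw [← htI, ← hj]; simp
      | succ d ih => intro j hj; exact (htj j (by omega)).1.trans (ih (j + 1) (by omega))
    intro j hj
    obtain ⟨d, hd⟩ := Nat.exists_eq_add_of_le hj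
    exact key d j hd.symm
  have hpos : ∀ t, t ≤ T → ∀ i, (ρ t).p i ≤ (C.W b).length + 1 := by
    intro t ht i
    have := (pos_close (M := M) (w := C.W b) (ρ := ρ) (t := 0) t
      (fun s _ hs' => hst s (by omega)) (by rw [h0]; intro i; simp) i).2.2
    rwa [Nat.zero_add] at this
  obtain ⟨D, hD⟩ : ∃ D, D = N * (C.x₁.length + 1) + 1 := ⟨_, rfl⟩
  obtain ⟨ℓ, hℓ⟩ : ∃ ℓ, ℓ = N * (C.x₁.length + 1) := ⟨_, rfl⟩
  have hℓ1 : 1 ≤ ℓ := by rw [hℓ]; nlinarith
  have hgap : ∀ t t', t ≤ t' → t' ≤ T → (∀ s, t < s → s < t' → ¬ Mark D (ρ s)) →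
      ∃ r, Phase C M b r (ρ t) (ρ t') := by
    intro t t' htt ht' hm
    obtain ⟨m, rfl⟩ := Nat.exists_eq_add_of_le htt
    rw [hD] at hm
    exact gap C M hN b t m (fun s hs hs' => hst s (by omega)) (hpos t (by omega)) hm
  have hKs : ∀ s, s ≤ T → Mark D (ρ s) → ρ s ∈ K := by
    intro s hs hm
    rw [hD] at hm
    exact hK _ (hpos s hs) hm
  -- short segments
  have hseg : ∀ (G' R a m : ℕ), a + m ≤ T → m ≤ G' * ℓ →
      (∀ t', t' ≤ a + m → ρ t' ∈ K → (∀ s, t' < s → s < a + m → ¬ Mark D (ρ s)) →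
        AccS C M K b R (ρ t')) →
      ∀ t, t ≤ a → ρ t ∈ K → (∀ s, t < s → s < a → ¬ Mark D (ρ s)) →
        AccS C M K b (2 * G' + R) (ρ t) := by
    intro G'
    induction G' with
    | zero =>
      intro R a m _ hm hnext t hta htK htm
      have : m = 0 := by omega
      subst this
      rw [Nat.mul_zero, Nat.zero_add]
      exact hnext t (by omega) htK (by simpa using htm)
    | succ G' ih =>
      intro R a m htm hm hnext t hta htK htmm
      have e : 2 * (G' + 1) + R = 2 + (2 * G' + R) := by ring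
      rw [e]
      have hshort : ∀ m', m' ≤ ℓ → a + m' ≤ T → ∀ f l, a ≤ f → f ≤ l → l ≤ a + m' →
          ∃ r, Phase C M b r (ρ f) (ρ l) := by
        intro m' hm' ham f l hf hfl hl
        obtain ⟨e, rfl⟩ := Nat.exists_eq_add_of_le hfl
        exact phase_short C M b f e (by rw [← hℓ]; omega)
          (fun s _ hs' => hst s (by omega)) (hpos f (by omega))
      by_cases hmℓ : m ≤ ℓ
      · refine piece_step hgap hKs (a := a) (a' := a + m) (by omega) htm (hshort m hmℓ htm) ?_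
          hta htK htmm
        intro t' ht' ht'K ht'm
        exact ih R (a + m) 0 (by omega) (by omega) (by simpa using hnext) t' ht' ht'K ht'm
      · refine piece_step hgap hKs (a := a) (a' := a + ℓ) (by omega) (by omega)
          (hshort ℓ le_rfl (by omega)) ?_ hta htK htmm
        intro t' ht' ht'K ht'm
        have e2 : (G' + 1) * ℓ = G' * ℓ + ℓ := by ring
        refine ih R (a + ℓ) (m - ℓ) (by omega) (by omega) ?_ t' ht' ht'K ht'm
        rw [show a + ℓ + (m - ℓ) = a + m by omega]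
        exact hnext
  have key : ∀ d j, j + d = I → ∀ t, t ≤ τ j → ρ t ∈ K →
      (∀ s, t < s → s < τ j → ¬ Mark D (ρ s)) → AccS C M K b (2 * G * d) (ρ t) := by
    intro d
    induction d with
    | zero =>
      intro j hj t ht htK htm
      have : j = I := by omega
      rw [this, htI] at ht htm
      rw [Nat.mul_zero]
      obtain ⟨r, hr⟩ := hgap t T ht le_rfl htm
      exact ⟨r, ρ T, hF, hr⟩
    | succ d ih =>
      intro j hj t ht htK htm
      have hnext := ih (j + 1) (by omega)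
      obtain ⟨hle, hor⟩ := htj j (by omega)
      have hjT := hmono (j + 1) (by omega)
      obtain ⟨m, hm⟩ := Nat.exists_eq_add_of_le hle
      rcases hor with hor | ⟨h, hor⟩
      · have e : 2 * G * (d + 1) = 2 * G + 2 * G * d := by ring
        rw [e]
        refine hseg G (2 * G * d) (τ j) m (by omega) ?_ (by rw [← hm]; exact hnext) t ht htK htm
        rw [hℓ]
        omega
      · obtain ⟨G', rfl⟩ : ∃ G', G = G' + 1 := ⟨G - 1, by omega⟩
        have e3 : 2 * (G' + 1) * (d + 1) = 2 + (2 * G' + 2 * (G' + 1) * d) := by ring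
        rw [e3]
        refine piece_step hgap hKs hle hjT ?_ ?_ ht htK htm
        · intro f l hf hfl hl
          obtain ⟨e, rfl⟩ := Nat.exists_eq_add_of_le hfl
          exact phase_solo C M hN b h f e (fun s _ hs' => hst s (by omega))
            (fun s hs hs' => hor s (by omega) (by omega))
        · intro t' ht' ht'K ht'm
          exact AccS.mono_add ht'K (hnext t' ht' ht'K ht'm) _
  have := key I 0 (by omega) 0 (by omega) (by rw [h0]; exact hinit) (by
    intro s hs hs'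
    rw [ht0] at hs'
    omega)
  exact this

end Pool.Agent.H38R3.MH
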