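import Mathlib

set_option autoImplicit false

namespace Pool.Agent.H38R3.MH

open Finset

/-- Few partial labellings have a small domain. -/
theorem few_labels {κ L : Type} [Fintype κ] [Fintype L] (x : ℝ) (hx0 : 0 < x) (hx1 : x ≤ 1) (m : ℕ)
    (F : Finset (κ → Option L))
    (hF : ∀ f ∈ F, ∃ A : Finset κ, A.card ≤ m ∧ ∀ a, f a ≠ none → a ∈ A) :
    (F.card : ℝ) * x ^ m ≤ Real.exp (Fintype.card L * x * Fintype.card κ) := by
  classical
  obtain ⟨w, hw⟩ : ∃ w : Option L → ℝ, w = fun o => o.elim 1 (fun _ => x) := ⟨_, rfl⟩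
  have hw0 : ∀ o, 0 ≤ w o := by
    intro o; rw [hw]; cases o <;> simp [hx0.le]
  have h1 : ∀ f ∈ F, x ^ m ≤ ∏ a, w (f a) := by
    intro f hf
    obtain ⟨A, hA, hfA⟩ := hF f hf
    have h2 : ∏ a, (if a ∈ A then x else 1) ≤ ∏ a, w (f a) := by
      apply Finset.prod_le_prod
      · intro a _; split_ifs <;> simp [hx0.le]
      · intro a _
        rw [hw]
        cases hfa : f a with
        | none => split_ifs <;> simp [hx1]
        | some y =>
          have : a ∈ A := hfA a (by rw [hfa]; simp)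
          simp [this]
    refine le_trans ?_ h2
    rw [Finset.prod_ite_mem, Finset.univ_inter, Finset.prod_const]
    exact pow_le_pow_of_le_one hx0.le hx1 hA
  have h3 : (F.card : ℝ) * x ^ m ≤ ∑ f ∈ F, ∏ a, w (f a) := by
    rw [← nsmul_eq_mul]
    exact Finset.card_nsmul_le_sum _ _ _ h1
  have h4 : ∑ f ∈ F, ∏ a, w (f a) ≤ ∑ f : κ → Option L, ∏ a, w (f a) := by
    apply Finset.sum_le_sum_of_subset_of_nonneg (Finset.subset_univ _)
    intro f _ _
    exact Finset.prod_nonneg (fun a _ => hw0 _)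
  have h5 : ∑ f : κ → Option L, ∏ a, w (f a) = ∏ _a : κ, ∑ o : Option L, w o := by
    rw [Finset.prod_univ_sum]
    simp
  have h6 : ∑ o : Option L, w o = 1 + Fintype.card L * x := by
    rw [Fintype.sum_option, hw]
    simp
  rw [h5, h6, Finset.prod_const, Finset.card_univ] at h4
  refine (h3.trans h4).trans ?_
  have h7 : 1 + (Fintype.card L : ℝ) * x ≤ Real.exp (Fintype.card L * x) := by
    have := Real.add_one_le_exp ((Fintype.card L : ℝ) * x)
    linarith
  calc (1 + (Fintype.card L : ℝ) * x) ^ Fintype.card κ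
      ≤ (Real.exp (Fintype.card L * x)) ^ Fintype.card κ := by gcongr
    _ = _ := by rw [← Real.exp_nat_mul]; congr 1; ring

/-- Shortening a path. -/
theorem simple_path {κ : Type} (E : κ → κ → Prop) (Z : κ → Prop) (c : κ) (R : ℕ)
    (h : ∃ p : ℕ → κ, p 0 = c ∧ (∀ i < R, E (p i) (p (i + 1))) ∧ Z (p R)) :
    ∃ R' ≤ R, ∃ p : ℕ → κ, p 0 = c ∧ (∀ i < R', E (p i) (p (i + 1))) ∧ Z (p R') ∧
      ∀ i j, i ≤ R' → j ≤ R' → p i = p j → i = j := by
  classical
  have hex : ∃ R, ∃ p : ℕ → κ, p 0 = c ∧ (∀ i < R, E (p i) (p (i + 1))) ∧ Z (p R) := ⟨R, h⟩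
  refine ⟨Nat.find hex, Nat.find_min' hex h, ?_⟩
  obtain ⟨p, h0, h1, h2⟩ := Nat.find_spec hex
  have hmin : ∀ S, S < Nat.find hex →
      ¬ ∃ p : ℕ → κ, p 0 = c ∧ (∀ i < S, E (p i) (p (i + 1))) ∧ Z (p S) :=
    fun S hS => Nat.find_min hex hS
  obtain ⟨R', hR'⟩ : ∃ R', R' = Nat.find hex := ⟨_, rfl⟩
  rw [← hR'] at h1 h2 hmin ⊢
  refine ⟨p, h0, h1, h2, ?_⟩
  have key : ∀ i j, i < j → j ≤ R' → p i ≠ p j := by
    intro i j hij hj hp
    apply hmin (R' - (j - i)) (by omega)
    refine ⟨fun t => if t ≤ i then p t else p (t + (j - i)), by simp [h0], ?_, ?_⟩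
    · intro t ht
      by_cases h3 : t + 1 ≤ i
      · have h4 : t ≤ i := by omega
        simp only [h3, h4, if_true]
        exact h1 t (by omega)
      · by_cases h4 : t ≤ i
        · have h5 : t = i := by omega
          subst h5
          simp only [le_refl, if_true, h3, if_false]
          rw [hp, show t + 1 + (j - t) = j + 1 by omega]
          exact h1 j (by omega)
        · simp only [h3, h4, if_false]
          rw [show t + 1 + (j - i) = t + (j - i) + 1 by ring]
          exact h1 _ (by omega)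
    · by_cases h3 : R' - (j - i) ≤ i
      · have h4 : j = R' := by omega
        have h5 : R' - (j - i) = i := by omega
        simp only [h5, le_refl, if_true]
        rw [hp, h4]
        exact h2
      · simp only [h3, if_false]
        rw [show R' - (j - i) + (j - i) = R' by omega]
        exact h2
  intro i j hi hj hp
  rcases lt_trichotomy i j with h3 | h3 | h3
  · exact absurd hp (key i j h3 hj)
  · exact h3
  · exact absurd hp.symm (key j i h3 hi)

/-- Matchings glue to a path. -/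
theorem path_of_matchings {κ G : Type} [Finite κ] (E : G → κ → κ → Prop) (Z : G → κ → Prop) (c : κ)
    (f : κ → Option (G × G)) (hc : f c ≠ none)
    (h : ∀ r : G, ∃ φ : κ → Option κ,
      (∀ a a' s s', f a = some (r, s) → f a' = some (r, s') → φ a = φ a' → a = a') ∧
      ∀ a s, f a = some (r, s) → (φ a = none ∧ Z r a) ∨
        ∃ y, φ a = some y ∧ y ≠ c ∧ (∃ s', f y = some (s', r)) ∧ E r a y) :
    ∃ a r, Relation.ReflTransGen (fun a y => ∃ r, E r a y) c a ∧ Z r a := by
  classical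
  choose φ hinj hφ using h
  obtain ⟨S, hS⟩ : ∃ S : κ → κ → Prop, S = fun a y => ∃ r s, f a = some (r, s) ∧ φ r a = some y :=
    ⟨_, rfl⟩
  by_contra hcon
  have hsub : ∀ a, Relation.ReflTransGen S c a →
      f a ≠ none ∧ Relation.ReflTransGen (fun a y => ∃ r, E r a y) c a := by
    intro a ha
    induction ha with
    | refl => exact ⟨hc, Relation.ReflTransGen.refl⟩
    | tail _ h2 ih =>
      rw [hS] at h2
      obtain ⟨r, s, h3, h4⟩ := h2
      rcases hφ r _ s h3 with ⟨h5, _⟩ | ⟨y, h5, _, ⟨s', h7⟩, h8⟩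
      · rw [h5] at h4; cases h4
      · rw [h4] at h5
        cases h5
        exact ⟨by rw [h7]; simp, ih.2.tail ⟨r, h8⟩⟩
  have hnext : ∀ a : {a // Relation.ReflTransGen S c a}, ∃ y : {a // Relation.ReflTransGen S c a},
      ∃ r s, f a.1 = some (r, s) ∧ φ r a.1 = some y.1 ∧ y.1 ≠ c ∧ ∃ s', f y.1 = some (s', r) := by
    rintro ⟨a, ha⟩
    obtain ⟨h1, h2⟩ := hsub a ha
    obtain ⟨⟨r, s⟩, h3⟩ := Option.ne_none_iff_exists'.mp h1
    rcases hφ r a s h3 with ⟨_, h5⟩ | ⟨y, h5, h6, h7, _⟩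
    · exact absurd ⟨a, r, h2, h5⟩ hcon
    · refine ⟨⟨y, ha.tail ?_⟩, r, s, h3, h5, h6, h7⟩
      rw [hS]
      exact ⟨r, s, h3, h5⟩
  choose nxt hnxt using hnext
  have hinj' : Function.Injective nxt := by
    intro a a' haa
    obtain ⟨r, s, h1, h2, _, s', h4⟩ := hnxt a
    obtain ⟨r₂, s₂, h5, h6, _, s₂', h8⟩ := hnxt a'
    rw [haa] at h4 h2
    rw [h4] at h8
    have : r = r₂ := by
      have := Option.some.inj h8
      exact (Prod.mk.injEq _ _ _ _ ▸ this).2
    subst this
    exact Subtype.ext (hinj r _ _ s s₂ h1 h5 (h2.trans h6.symm))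
  have hsurj := Finite.surjective_of_injective hinj'
  obtain ⟨a, ha⟩ := hsurj ⟨c, Relation.ReflTransGen.refl⟩
  obtain ⟨_, _, _, _, h3, _⟩ := hnxt a
  rw [ha] at h3
  exact h3 rfl

/-- A simple path gives matchings. -/
theorem matchings_of_path {κ G : Type} (E : G → κ → κ → Prop) (Z : G → κ → Prop) (c : κ)
    (R : ℕ) (p : ℕ → κ) (h0 : p 0 = c) (h1 : ∀ i < R, ∃ r, E r (p i) (p (i + 1)))
    (h2 : ∃ r, Z r (p R)) (h3 : ∀ i j, i ≤ R → j ≤ R → p i = p j → i = j) :
    ∃ f : κ → Option (G × G), f c ≠ none ∧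
      (∃ A : Finset κ, A.card ≤ R + 1 ∧ ∀ a, f a ≠ none → a ∈ A) ∧
      ∀ r : G, ∃ φ : κ → Option κ,
      (∀ a a' s s', f a = some (r, s) → f a' = some (r, s') → φ a = φ a' → a = a') ∧
      ∀ a s, f a = some (r, s) → (φ a = none ∧ Z r a) ∨
        ∃ y, φ a = some y ∧ y ≠ c ∧ (∃ s', f y = some (s', r)) ∧ E r a y := by
  classical
  have hr : ∀ i, ∃ r : G, (i < R → E r (p i) (p (i + 1))) ∧ (i = R → Z r (p R)) := by
    intro i
    by_cases hi : i < R
    · obtain ⟨r, hr⟩ := h1 i hi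
      exact ⟨r, fun _ => hr, fun h => by omega⟩
    · obtain ⟨r, hr⟩ := h2
      exact ⟨r, fun h => absurd h hi, fun _ => hr⟩
  choose rr hrE hrZ using hr
  obtain ⟨f, hf⟩ : ∃ f : κ → Option (G × G), f = fun a =>
      if h : ∃ i, i ≤ R ∧ p i = a then some (rr h.choose, rr (h.choose - 1)) else none := ⟨_, rfl⟩
  obtain ⟨φ, hφ⟩ : ∃ φ : κ → Option κ, φ = fun a =>
      if h : ∃ i, i ≤ R ∧ p i = a then (if h.choose < R then some (p (h.choose + 1)) else none)
      else none := ⟨_, rfl⟩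
  have hidx : ∀ i, i ≤ R → ∀ h : ∃ j, j ≤ R ∧ p j = p i, h.choose = i := by
    intro i hi h
    exact h3 _ _ h.choose_spec.1 hi h.choose_spec.2
  have hfp : ∀ i, i ≤ R → f (p i) = some (rr i, rr (i - 1)) := by
    intro i hi
    have hex : ∃ j, j ≤ R ∧ p j = p i := ⟨i, hi, rfl⟩
    rw [hf]
    simp only [dif_pos hex, hidx i hi hex]
  have hφp : ∀ i, i ≤ R → φ (p i) = if i < R then some (p (i + 1)) else none := by
    intro i hi
    have hex : ∃ j, j ≤ R ∧ p j = p i := ⟨i, hi, rfl⟩
    rw [hφ]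
    simp only [dif_pos hex, hidx i hi hex]
  have hfn : ∀ a, f a ≠ none → ∃ i, i ≤ R ∧ p i = a := by
    intro a ha
    by_contra hh
    apply ha
    rw [hf]
    simp only [dif_neg hh]
  refine ⟨f, ?_, ⟨(Finset.range (R + 1)).image p, ?_, ?_⟩, ?_⟩
  · rw [← h0, hfp 0 (by omega)]; simp
  · exact Finset.card_image_le.trans (by simp)
  · intro a ha
    obtain ⟨i, hi, rfl⟩ := hfn a ha
    exact Finset.mem_image_of_mem _ (by simp; omega)
  · intro r
    refine ⟨φ, ?_, ?_⟩
    · intro a a' s s' ha ha' hφa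
      obtain ⟨i, hi, rfl⟩ := hfn a (by rw [ha]; simp)
      obtain ⟨j, hj, rfl⟩ := hfn a' (by rw [ha']; simp)
      rw [hφp i hi, hφp j hj] at hφa
      by_cases h4 : i < R
      · by_cases h5 : j < R
        · rw [if_pos h4, if_pos h5] at hφa
          have := h3 _ _ (by omega) (by omega) (Option.some.inj hφa)
          have : i = j := by omega
          rw [this]
        · rw [if_pos h4, if_neg h5] at hφa
          cases hφa
      · by_cases h5 : j < R
        · rw [if_neg h4, if_pos h5] at hφa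
          cases hφa
        · have : i = j := by omega
          rw [this]
    · intro a s ha
      obtain ⟨i, hi, rfl⟩ := hfn a (by rw [ha]; simp)
      rw [hfp i hi] at ha
      have hri : rr i = r := by
        have := Option.some.inj ha
        exact (Prod.mk.injEq _ _ _ _ ▸ this).1
      rw [hφp i hi]
      by_cases h4 : i < R
      · right
        rw [if_pos h4]
        refine ⟨p (i + 1), rfl, ?_, ⟨rr (i + 1), ?_⟩, ?_⟩
        · intro h5
          rw [← h0] at h5
          have := h3 _ _ (by omega) (by omega) h5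
          omega
        · rw [hfp (i + 1) (by omega), Nat.add_sub_cancel, hri]
        · rw [← hri]; exact hrE i h4
      · left
        rw [if_neg h4]
        have : i = R := by omega
        refine ⟨rfl, ?_⟩
        rw [← hri, this]
        exact hrZ R rfl

end Pool.Agent.H38R3.MH
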