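import Pool.Agent.H38R3.MH.Lower

set_option autoImplicit false

namespace Pool.Agent.H38R3.MH

open Finset
open Pool.Agent.H541R2 (rd mv gsign mu mu_nonneg mu_lt_one IsCyl isCyl_univ cyl_card sign_card
  num_aux theLang)
open Pool.Agent.H867R4

variable {Q : Type}

/-- The lower bound for the number of pieces, without logarithm, for two heads. -/
theorem lower_bound2 (Q : Type) [Fintype Q] :
    ∃ c : ℝ, 0 < c ∧ ∀ n₀ : ℕ, ∃ n : ℕ, n₀ ≤ n ∧ ∀ (M : NMach (Fin 4) 2 Q),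
      (∀ w : List (Fin 4), w.length = n → (w ∈ theLang ↔ M.Accepts w)) →
      ∃ w : List (Fin 4), w.length = n ∧ w ∈ theLang ∧ ∀ (T I : ℕ) (ρ : ℕ → NCfg 2 Q),
        M.AccRun w T ρ → Pieces n T I ρ → c * (n : ℝ) ≤ I := by
  classical
  by_cases hQ : Nonempty Q
  swap
  · refine ⟨1, one_pos, fun n₀ => ⟨n₀, le_rfl, fun M => ?_⟩⟩
    exact absurd ⟨M.q₀⟩ hQ
  obtain ⟨C⟩ := exists_code Q
  obtain ⟨V, hV⟩ : ∃ V, V = C.x₁.length + 1 := ⟨_, rfl⟩
  have hV1 : 1 ≤ V := by omega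
  obtain ⟨g, hg⟩ : ∃ g, g = 3 * 2 := ⟨_, rfl⟩
  obtain ⟨μ', hμ'⟩ : ∃ μ' : ℝ, μ' = max (mu g) (1 / 2) := ⟨_, rfl⟩
  have hμ'1 : μ' < 1 := by rw [hμ']; exact max_lt (mu_lt_one g) (by norm_num)
  have hμ'0 : 0 < μ' := by rw [hμ']; exact lt_of_lt_of_le (by norm_num) (le_max_right _ _)
  obtain ⟨lam, hlam⟩ : ∃ lam : ℝ, lam = -Real.log μ' := ⟨_, rfl⟩
  have hlam0 : 0 < lam := by
    have := Real.log_neg hμ'0 hμ'1
    linarith
  obtain ⟨C4, hC4⟩ : ∃ C4 : ℝ, C4 = (g + 2) * (V + 1) := ⟨_, rfl⟩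
  have hC40 : 0 < C4 := by rw [hC4]; positivity
  obtain ⟨q, hq⟩ : ∃ q : ℝ, q = Fintype.card Q := ⟨_, rfl⟩
  have hq1 : 1 ≤ q := by
    rw [hq]
    exact_mod_cast Fintype.card_pos
  -- `K` has at most `C5 * N` elements
  obtain ⟨C5, hC5⟩ : ∃ C5 : ℝ, C5 = q * (2 * ((g + 3) * (C4 + 2))) := ⟨_, rfl⟩
  have hC50 : 0 < C5 := by rw [hC5]; positivity
  obtain ⟨x, hx⟩ : ∃ x : ℝ, x = min 1 (lam / (4 * (g + 1) ^ 2 * C5)) := ⟨_, rfl⟩
  have hx0 : 0 < x := by rw [hx]; exact lt_min one_pos (by positivity)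
  have hx1 : x ≤ 1 := by rw [hx]; exact min_le_left _ _
  have hx2 : (g + 1 : ℝ) ^ 2 * x * C5 ≤ lam / 4 := by
    have h1 : x ≤ lam / (4 * (g + 1) ^ 2 * C5) := by rw [hx]; exact min_le_right _ _
    rw [le_div_iff₀ (by positivity)] at h1
    linarith
  obtain ⟨Lx, hLx⟩ : ∃ Lx : ℝ, Lx = -Real.log x + 1 := ⟨_, rfl⟩
  have hlogx : Real.log x ≤ 0 := Real.log_nonpos hx0.le hx1
  have hLx0 : 0 < Lx := by rw [hLx]; linarith
  obtain ⟨G, hG⟩ : ∃ G : ℕ, G = 2 * (g + 2) := ⟨_, rfl⟩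
  have hG1 : 1 ≤ G := by omega
  have hG0 : (0 : ℝ) < G := by exact_mod_cast hG1
  refine ⟨lam / (8 * C4 * Lx * (2 * G)), by positivity, fun n₀ => ?_⟩
  -- choose `N`
  have hev : ∀ᶠ N : ℕ in Filter.atTop, (Real.sqrt μ') ^ N < 1 / 4 ∧ μ' ^ N < 1 / 2 ∧
      n₀ ≤ N ∧ 2 ≤ N ∧ 8 * Lx / lam ≤ (N : ℝ) := by
    have hs : Real.sqrt μ' < 1 := by
      rw [Real.sqrt_lt' one_pos]; simpa using hμ'1
    have t1 := tendsto_pow_atTop_nhds_zero_of_lt_one (Real.sqrt_nonneg μ') hs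
    have t2 := tendsto_pow_atTop_nhds_zero_of_lt_one hμ'0.le hμ'1
    filter_upwards [t1.eventually (gt_mem_nhds (show (0:ℝ) < 1/4 by norm_num)),
      t2.eventually (gt_mem_nhds (show (0:ℝ) < 1/2 by norm_num)),
      Filter.eventually_ge_atTop n₀, Filter.eventually_ge_atTop 2,
      tendsto_natCast_atTop_atTop.eventually_ge_atTop (8 * Lx / lam)] with N a1 a2 a3 a4 a5
    exact ⟨a1, a2, a3, a4, a5⟩
  obtain ⟨N, hN1, hN2, hN3, hN4, hN5⟩ := hev.exists
  obtain ⟨n, hn⟩ : ∃ n, n = (g + 2) * (N * V + 1) - 1 := ⟨_, rfl⟩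
  have hn1 : n + 1 = (g + 2) * (N * V + 1) := by
    have : 1 ≤ (g + 2) * (N * V + 1) := Nat.one_le_iff_ne_zero.mpr (by positivity)
    omega
  have hNV : N ≤ N * V := Nat.le_mul_of_pos_right _ (by omega)
  have hnN : N ≤ n := by
    have h1 : N * V + 1 ≤ (g + 2) * (N * V + 1) := Nat.le_mul_of_pos_left _ (by omega)
    omega
  have hnG : n ≤ G * (N * V) := by
    have h1 : (g + 2) * (N * V + 1) ≤ (g + 2) * (N * V + N * V) :=
      Nat.mul_le_mul_left _ (by omega)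
    have h2 : (g + 2) * (N * V + N * V) = G * (N * V) := by rw [hG]; ring
    omega
  refine ⟨n, by omega, ?_⟩
  intro M hM
  have hnC : (n : ℝ) ≤ C4 * N := by
    have h1 : (n : ℝ) + 1 = (g + 2) * (N * V + 1) := by exact_mod_cast hn1
    have h2 : (1 : ℝ) ≤ N := by
      have : 1 ≤ N := by omega
      exact_mod_cast this
    have h3 : ((g : ℝ) + 2) * (N * V + 1) ≤ (g + 2) * (N * V + N) := by gcongr
    have h4 : ((g : ℝ) + 2) * (N * V + N) = C4 * N := by rw [hC4]; ring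
    linarith
  have hN1' : (1 : ℝ) ≤ N := by
    have : 1 ≤ N := by omega
    exact_mod_cast this
  obtain ⟨K, hK⟩ : ∃ K, K = mcfgs (Q := Q) (N * V + 1) (g + 3) n := ⟨_, rfl⟩
  have hKcard : (K.card : ℝ) ≤ C5 * N := by
    have h1 := mcfgs_card (Q := Q) (N * V + 1) (g + 3) n
    rw [← hK] at h1
    have h2 : (K.card : ℝ) ≤ q * (2 * ((g + 3) * (n + 2))) := by
      rw [hq]; exact_mod_cast h1
    have h3 : (n : ℝ) + 2 ≤ (C4 + 2) * N := by
      have : (C4 + 2) * (N : ℝ) = C4 * N + 2 * N := by ring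
      linarith
    calc (K.card : ℝ) ≤ q * (2 * ((g + 3) * (n + 2))) := h2
      _ ≤ q * (2 * ((g + 3) * ((C4 + 2) * N))) := by gcongr
      _ = C5 * N := by rw [hC5]; ring
  -- number of phases
  obtain ⟨R, hR1, hR2⟩ : ∃ R : ℕ, ((R : ℝ) + 1) * Lx ≤ N * lam / 4 ∧
      (N * lam / 4 : ℝ) ≤ (R + 2) * Lx := by
    have h8 : 8 * Lx ≤ N * lam := by
      rw [div_le_iff₀ hlam0] at hN5
      exact hN5
    have hge : 1 ≤ ⌊(N * lam / 4) / Lx⌋₊ := by
      rw [Nat.one_le_floor_iff, le_div_iff₀ hLx0]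
      linarith
    obtain ⟨R, hR⟩ := Nat.exists_eq_add_of_le hge
    refine ⟨R, ?_, ?_⟩
    · have := Nat.floor_le (a := (N * lam / 4) / Lx) (by positivity)
      rw [le_div_iff₀ hLx0, hR] at this
      push_cast at this
      linarith
    · have := (Nat.lt_floor_add_one ((N * lam / 4) / Lx)).le
      rw [div_le_iff₀ hLx0, hR] at this
      push_cast at this
      linarith
  subst hg
  have hlenW : ∀ b : Fin (3 * 2 + 1) → Fin N → Bool, (C.W b).length = n := by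
    intro b
    have := C.W_length b
    rw [← hV] at this
    have e : (3 * 2 + 1 + 1) * (N * V + 1) = (3 * 2 + 2) * (N * V + 1) := by ring
    omega
  have hDJ : n + 1 < (3 * 2 + 3) * (N * V + 1) := by
    have : (3 * 2 + 3) * (N * V + 1) = (3 * 2 + 2) * (N * V + 1) + (N * V + 1) := by ring
    omega
  have hKmem : ∀ (b : Fin (3 * 2 + 1) → Fin N → Bool) (c : NCfg 2 Q),
      (∀ i, c.p i ≤ (C.W b).length + 1) → Mark (N * (C.x₁.length + 1) + 1) c → c ∈ K := by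
    intro b c hc hm
    rw [hK]
    apply mem_mcfgs hDJ
    · intro i
      rw [← hlenW b]
      exact hc i
    · rw [hV]; exact hm
  have hinit : (⟨M.q₀, fun _ => 0⟩ : NCfg 2 Q) ∈ K :=
    hKmem (fun _ _ => true) _ (fun i => Nat.zero_le _) ⟨0, dvd_zero _⟩
  -- a good matrix exists
  have hgood : ∃ b : Fin (3 * 2 + 1) → Fin N → Bool, gsign Finset.univ b = -1 ∧
      ¬ AccS C M K b R (⟨M.q₀, fun _ => 0⟩ : NCfg 2 Q) := by
    by_contra hcon0
    have hcon : ∀ b : Fin (3 * 2 + 1) → Fin N → Bool, gsign Finset.univ b = -1 →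
        AccS C M K b R (⟨M.q₀, fun _ => 0⟩ : NCfg 2 Q) := by
      intro b hb
      by_contra hh
      exact hcon0 ⟨b, hb, hh⟩
    have h5 := accS_card C M K (⟨M.q₀, fun _ => 0⟩ : NCfg 2 Q) hinit (-1) (by norm_num) R (by
        rintro b ⟨d, hd1, hd2⟩
        rw [← W_mem C b, hM _ (hlenW b)]
        exact accepts_of_reach M _ hd1 hd2) x hx0 hx1
    have h4 : (2 ^ N : ℝ) ^ (3 * 2 + 1) * (1 - (mu (3 * 2)) ^ N) / 2 ≤
        ((Finset.univ.filter (fun b : Fin (3 * 2 + 1) → Fin N → Bool =>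
          AccS C M K b R (⟨M.q₀, fun _ => 0⟩ : NCfg 2 Q))).card : ℝ) := by
      refine (sign_card (3 * 2) N (-1) (Or.inr rfl)).trans ?_
      apply Nat.cast_le.mpr
      apply Finset.card_le_card
      intro b hb
      rw [Finset.mem_filter] at hb ⊢
      exact ⟨Finset.mem_univ _, hcon b hb.2⟩
    have hmu0 := mu_nonneg (3 * 2)
    have h6 : (mu (3 * 2)) ^ N ≤ μ' ^ N := pow_le_pow_left₀ hmu0 (by rw [hμ']; exact le_max_left _ _) N
    have hxpow : Real.exp (-(N * lam / 4)) ≤ x ^ (R + 1) := by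
      have e1 : x ^ (R + 1) = Real.exp ((R + 1 : ℕ) * Real.log x) := by
        rw [← Real.log_pow, Real.exp_log (by positivity)]
      rw [e1]
      apply Real.exp_le_exp.mpr
      push_cast
      have h7 : ((R : ℝ) + 1) * (-Real.log x) ≤ ((R : ℝ) + 1) * Lx := by
        apply mul_le_mul_of_nonneg_left _ (by positivity)
        rw [hLx]; linarith
      linarith
    have hexp : Real.exp ((((3 * 2 : ℕ) : ℝ) + 1) ^ 2 * x * K.card) ≤ Real.exp (N * lam / 4) := by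
      apply Real.exp_le_exp.mpr
      calc (((3 * 2 : ℕ) : ℝ) + 1) ^ 2 * x * K.card ≤ (((3 * 2 : ℕ) : ℝ) + 1) ^ 2 * x * (C5 * N) := by
            gcongr
        _ = ((((3 * 2 : ℕ) : ℝ) + 1) ^ 2 * x * C5) * N := by ring
        _ ≤ (lam / 4) * N := by gcongr
        _ = _ := by ring
    have h8 : Real.exp (N * lam / 2) * μ' ^ N = (Real.sqrt μ') ^ N := by
      have e1 : Real.sqrt μ' = Real.exp (-lam / 2) := by
        rw [Real.sqrt_eq_iff_mul_self_eq hμ'0.le (Real.exp_pos _).le, ← Real.exp_add]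
        have : -lam / 2 + -lam / 2 = Real.log μ' := by rw [hlam]; ring
        rw [this, Real.exp_log hμ'0]
      have e2 : μ' = Real.exp (-lam) := by rw [hlam, neg_neg, Real.exp_log hμ'0]
      rw [e1, ← Real.exp_nat_mul]
      nth_rewrite 1 [e2]
      rw [← Real.exp_nat_mul, ← Real.exp_add]
      congr 1
      ring
    obtain ⟨P, hP⟩ : ∃ P : ℝ, P = (2 ^ N : ℝ) ^ (3 * 2 + 1) := ⟨_, rfl⟩
    have hP0 : 0 < P := by rw [hP]; positivity
    rw [← hP] at h4 h5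
    obtain ⟨Y, hY⟩ : ∃ Y : ℝ, Y = ((Finset.univ.filter (fun b : Fin (3 * 2 + 1) → Fin N → Bool =>
          AccS C M K b R (⟨M.q₀, fun _ => 0⟩ : NCfg 2 Q))).card : ℝ) := ⟨_, rfl⟩
    have hY0 : 0 ≤ Y := by rw [hY]; positivity
    rw [← hY] at h4
    have h9 : Y * Real.exp (-(N * lam / 4)) ≤ Real.exp (N * lam / 4) * (P * μ' ^ N) := by
      have h5' : Y * x ^ (R + 1) ≤ Real.exp ((((3 * 2 : ℕ) : ℝ) + 1) ^ 2 * x * K.card) *
          (P * (mu (3 * 2)) ^ N) := by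
        rw [hY]; convert h5
      calc Y * Real.exp (-(N * lam / 4)) ≤ Y * x ^ (R + 1) := by gcongr
        _ ≤ _ := h5'
        _ ≤ _ := by gcongr
    have h10 : Y ≤ P * (Real.sqrt μ') ^ N := by
      have h11 : Y = (Y * Real.exp (-(N * lam / 4))) * Real.exp (N * lam / 4) := by
        rw [mul_assoc, ← Real.exp_add, neg_add_cancel, Real.exp_zero, mul_one]
      rw [h11]
      calc (Y * Real.exp (-(N * lam / 4))) * Real.exp (N * lam / 4)
          ≤ (Real.exp (N * lam / 4) * (P * μ' ^ N)) * Real.exp (N * lam / 4) := by gcongr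
        _ = P * ((Real.exp (N * lam / 4) * Real.exp (N * lam / 4)) * μ' ^ N) := by ring
        _ = P * (Real.exp (N * lam / 2) * μ' ^ N) := by
          rw [← Real.exp_add]; congr 3; ring
        _ = _ := by rw [h8]
    exact absurd (h4.trans h10) (not_le.mpr (num_aux hP0 (lt_of_le_of_lt h6 hN2) hN1))
  obtain ⟨b, hb, hacc⟩ := hgood
  refine ⟨C.W b, hlenW b, (W_mem C b).mpr hb, ?_⟩
  intro T I ρ hρ hI
  have hRI : R + 1 ≤ 2 * G * I := by
    by_contra hlt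
    rw [not_le] at hlt
    apply hacc
    have h1 := accS_of_run C M (by omega) K b (hKmem b) hinit G n (by rw [← hV]; exact hnG) hG1 hρ hI
    rw [hρ.1] at h1
    obtain ⟨e, he⟩ := Nat.exists_eq_add_of_le (show 2 * G * I ≤ R by omega)
    rw [he, Nat.add_comm (2 * G * I) e]
    exact AccS.mono_add hinit h1 e
  have hRI' : (R : ℝ) + 1 ≤ 2 * G * I := by exact_mod_cast hRI
  have hR3 : N * lam / 8 ≤ ((R : ℝ) + 1) * Lx := by
    have : ((R : ℝ) + 2) * Lx ≤ 2 * (((R : ℝ) + 1) * Lx) := by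
      have : 0 ≤ (R : ℝ) * Lx := by positivity
      linarith
    linarith
  have hI0 : (0 : ℝ) ≤ I := by positivity
  calc lam / (8 * C4 * Lx * (2 * G)) * (n : ℝ) ≤ lam / (8 * C4 * Lx * (2 * G)) * (C4 * N) := by gcongr
    _ = (N * lam / 8) / (Lx * (2 * G)) := by field_simp
    _ ≤ (((R : ℝ) + 1) * Lx) / (Lx * (2 * G)) := by gcongr
    _ ≤ ((2 * G * I) * Lx) / (Lx * (2 * G)) := by gcongr
    _ = I := by field_simp

/-- Computations can be shortened: the length of a shortest accepting computation using only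
configurations of a given one is smaller than their number. -/
theorem short_run {α : Type} {k : ℕ} {Q : Type} {M : NMach α k Q} {w : List α} {T : ℕ} {ρ : ℕ → NCfg k Q}
    (h : M.AccRun w T ρ) : ∃ (T' : ℕ) (ρ' : ℕ → NCfg k Q), M.AccRun w T' ρ' ∧
      T' + 1 ≤ (ρ '' {t | t ≤ T}).ncard := by
  classical
  obtain ⟨h0, h1, h2⟩ := h
  obtain ⟨T', hT', p, hp0, hp1, hp2, hp3⟩ := simple_path
    (fun a b => M.Step w a b ∧ b ∈ ρ '' {t | t ≤ T})
    (fun c => c.q ∈ M.F) (ρ 0) T ⟨ρ, rfl, fun i hi => ⟨h1 i hi, i + 1, by simpa using hi, rfl⟩, h2⟩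
  refine ⟨T', p, ⟨by rw [hp0, h0], fun t ht => (hp1 t ht).1, hp2⟩, ?_⟩
  have hmem : ∀ i, i ≤ T' → p i ∈ ρ '' {t | t ≤ T} := by
    intro i hi
    cases i with
    | zero => rw [hp0]; exact ⟨0, by simp, rfl⟩
    | succ i => exact (hp1 i (by omega)).2
  have hfin : (ρ '' {t | t ≤ T}).Finite := (Set.finite_le_nat T).image _
  have hsub : ((Finset.range (T' + 1)).image p : Set (NCfg k Q)) ⊆ ρ '' {t | t ≤ T} := by
    intro c hc
    simp only [Finset.coe_image, Set.mem_image, Finset.mem_coe, Finset.mem_range] at hc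
    obtain ⟨i, hi, rfl⟩ := hc
    exact hmem i (by omega)
  have hcard := Set.ncard_le_ncard hsub hfin
  rw [Set.ncard_coe_finset, Finset.card_image_of_injOn] at hcard
  · simpa using hcard
  · intro i hi j hj hij
    simp only [Finset.coe_range, Set.mem_Iio] at hi hj
    exact hp3 i j (by omega) (by omega) hij

end Pool.Agent.H38R3.MH
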