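import Pool.Agent.H38R3.MH.Chain
import Pool.Agent.H38R3.MH.Count

set_option autoImplicit false

namespace Pool.Agent.H38R3.MH

open Finset
open Pool.Agent.H541R2 (rd mv gsign mu mu_nonneg mu_lt_one IsCyl isCyl_univ cyl_card sign_card
  num_aux theLang)
open Pool.Agent.H867R4

variable {k : ℕ} {Q : Type}

/-- Chains as paths. -/
theorem AccS.path {C : Code Q} {M : NMach (Fin 4) k Q} {g N : ℕ} {K : Finset (NCfg k Q)}
    {b : Fin g → Fin N → Bool} : ∀ (R : ℕ) (c : {c // c ∈ K}), AccS C M K b R c.1 →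
    ∃ p : ℕ → {c // c ∈ K}, p 0 = c ∧ (∀ i < R, ∃ r, Phase C M b r (p i).1 (p (i + 1)).1) ∧
      ∃ r, ∃ d, d.q ∈ M.F ∧ Phase C M b r (p R).1 d := by
  intro R
  induction R with
  | zero =>
    intro c h
    exact ⟨fun _ => c, rfl, by intro i hi; omega, h⟩
  | succ R ih =>
    rintro c ⟨r, d, hd, h1, h2⟩
    obtain ⟨p, hp0, hp1, hp2⟩ := ih ⟨d, hd⟩ h2
    refine ⟨fun i => if i = 0 then c else p (i - 1), by simp, ?_, by simpa using hp2⟩
    intro i hi
    by_cases h0 : i = 0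
    · subst h0
      refine ⟨r, ?_⟩
      simpa [hp0] using h1
    · obtain ⟨r', hr'⟩ := hp1 (i - 1) (by omega)
      refine ⟨r', ?_⟩
      simp only [h0, if_false, Nat.add_eq_zero_iff, one_ne_zero, and_false, Nat.add_sub_cancel]
      rw [show i - 1 + 1 = i by omega] at hr'
      exact hr'

/-- The matrices for which the labelling `f` is good. -/
def X (C : Code Q) (M : NMach (Fin 4) k Q) (g N : ℕ) (K : Finset (NCfg k Q)) (c₀ : {c // c ∈ K})
    (f : {c // c ∈ K} → Option (Fin g × Fin g)) : Set (Fin g → Fin N → Bool) :=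
  {b | ∀ r : Fin g, ∃ φ : {c // c ∈ K} → Option {c // c ∈ K},
      (∀ a a' s s', f a = some (r, s) → f a' = some (r, s') → φ a = φ a' → a = a') ∧
      ∀ a s, f a = some (r, s) → (φ a = none ∧ ∃ d, d.q ∈ M.F ∧ Phase C M b r a.1 d) ∨
        ∃ y, φ a = some y ∧ y ≠ c₀ ∧ (∃ s', f y = some (s', r)) ∧ Phase C M b r a.1 y.1}

theorem isCyl_X (C : Code Q) (M : NMach (Fin 4) k Q) (g N : ℕ) (K : Finset (NCfg k Q))
    (c₀ : {c // c ∈ K}) (f : {c // c ∈ K} → Option (Fin g × Fin g)) : IsCyl (X C M g N K c₀ f) := by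
  refine ⟨fun r => {b | ∃ φ : {c // c ∈ K} → Option {c // c ∈ K},
      (∀ a a' s s', f a = some (r, s) → f a' = some (r, s') → φ a = φ a' → a = a') ∧
      ∀ a s, f a = some (r, s) → (φ a = none ∧ ∃ d, d.q ∈ M.F ∧ Phase C M b r a.1 d) ∨
        ∃ y, φ a = some y ∧ y ≠ c₀ ∧ (∃ s', f y = some (s', r)) ∧ Phase C M b r a.1 y.1}, ?_,
    fun b => Iff.rfl⟩
  rintro r b b' hbb ⟨φ, h1, h2⟩
  refine ⟨φ, h1, fun a s ha => ?_⟩
  rcases h2 a s ha with ⟨h3, d, h4, h5⟩ | ⟨y, h3, h4, h5, h6⟩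
  · exact Or.inl ⟨h3, d, h4, phase_indep C M r _ _ b b' hbb h5⟩
  · exact Or.inr ⟨y, h3, h4, h5, phase_indep C M r _ _ b b' hbb h6⟩

theorem reach_of_X {C : Code Q} {M : NMach (Fin 4) k Q} {g N : ℕ} {K : Finset (NCfg k Q)}
    {c₀ : {c // c ∈ K}} {f : {c // c ∈ K} → Option (Fin g × Fin g)} (hf : f c₀ ≠ none)
    {b : Fin g → Fin N → Bool} (hb : b ∈ X C M g N K c₀ f) :
    ∃ d, Relation.ReflTransGen (M.Step (C.W b)) c₀.1 d ∧ d.q ∈ M.F := by
  obtain ⟨a, r, h1, d, h2, h3⟩ := path_of_matchings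
    (fun r (a y : {c // c ∈ K}) => Phase C M b r a.1 y.1)
    (fun r a => ∃ d : NCfg k Q, d.q ∈ M.F ∧ Phase C M b r a.1 d) c₀ f hf hb
  have hph : ∀ r c d, Phase C M b r c d → Relation.ReflTransGen (M.Step (C.W b)) c d := by
    intro r c d h
    have := Free.sound h
    rwa [← C.W_split b r] at this
  refine ⟨d, ?_, h2⟩
  refine Relation.ReflTransGen.trans ?_ (hph r _ _ h3)
  clear h3
  induction h1 with
  | refl => exact Relation.ReflTransGen.refl
  | tail _ h4 ih =>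
    obtain ⟨r', h4⟩ := h4
    exact ih.trans (hph r' _ _ h4)

open Classical in
/-- Few matrices are accepted along short chains. -/
theorem accS_card (C : Code Q) {g N : ℕ} (M : NMach (Fin 4) k Q) (K : Finset (NCfg k Q))
    (c₀ : NCfg k Q) (hc₀ : c₀ ∈ K) (σ : ℝ) (hσ : |σ| = 1) (R : ℕ)
    (hb : ∀ b : Fin (g + 1) → Fin N → Bool,
      (∃ d, Relation.ReflTransGen (M.Step (C.W b)) c₀ d ∧ d.q ∈ M.F) →
        gsign Finset.univ b = σ) (x : ℝ) (hx0 : 0 < x) (hx1 : x ≤ 1) :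
    ((Finset.univ.filter (fun b : Fin (g + 1) → Fin N → Bool => AccS C M K b R c₀)).card : ℝ) *
      x ^ (R + 1) ≤ Real.exp ((g + 1 : ℝ) ^ 2 * x * K.card) *
        ((2 ^ N : ℝ) ^ (g + 1) * (mu g) ^ N) := by
  obtain ⟨F, hF⟩ : ∃ F : Finset ({c // c ∈ K} → Option (Fin (g + 1) × Fin (g + 1))),
      F = Finset.univ.filter (fun f => f ⟨c₀, hc₀⟩ ≠ none ∧
        ∃ A : Finset {c // c ∈ K}, A.card ≤ R + 1 ∧ ∀ a, f a ≠ none → a ∈ A) := ⟨_, rfl⟩
  have h1 := few_labels x hx0 hx1 (R + 1) F (by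
    intro f hf
    rw [hF, Finset.mem_filter] at hf
    exact hf.2.2)
  have hsub : (Finset.univ.filter (fun b : Fin (g + 1) → Fin N → Bool => AccS C M K b R c₀)) ⊆
      F.biUnion (fun f => Finset.univ.filter (fun b => b ∈ X C M (g + 1) N K ⟨c₀, hc₀⟩ f)) := by
    intro b hb'
    rw [Finset.mem_filter] at hb'
    obtain ⟨R', hR', p, hp0, hp1, hp2, hp3⟩ := simple_path
      (fun a y : {c // c ∈ K} => ∃ r, Phase C M b r a.1 y.1)
      (fun a => ∃ r, ∃ d, d.q ∈ M.F ∧ Phase C M b r a.1 d) ⟨c₀, hc₀⟩ R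
      (AccS.path R ⟨c₀, hc₀⟩ hb'.2)
    obtain ⟨f, hf1, ⟨A, hA1, hA2⟩, hf3⟩ := matchings_of_path
      (fun r (a y : {c // c ∈ K}) => Phase C M b r a.1 y.1)
      (fun r a => ∃ d, d.q ∈ M.F ∧ Phase C M b r a.1 d) ⟨c₀, hc₀⟩ R' p hp0 hp1 hp2 hp3
    rw [Finset.mem_biUnion]
    refine ⟨f, ?_, ?_⟩
    · rw [hF, Finset.mem_filter]
      exact ⟨Finset.mem_univ _, hf1, A, by omega, hA2⟩
    · rw [Finset.mem_filter]
      exact ⟨Finset.mem_univ _, hf3⟩
  have h2 := (Finset.card_le_card hsub).trans Finset.card_biUnion_le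
  have h3 : ∀ f ∈ F, ((Finset.univ.filter
      (fun b => b ∈ X C M (g + 1) N K ⟨c₀, hc₀⟩ f)).card : ℝ) ≤
        (2 ^ N : ℝ) ^ (g + 1) * (mu g) ^ N := by
    intro f hf
    rw [hF, Finset.mem_filter] at hf
    exact cyl_card (isCyl_X C M (g + 1) N K ⟨c₀, hc₀⟩ f) σ hσ
      (fun b hbX => hb b (reach_of_X hf.2.1 hbX))
  have h4 : ((Finset.univ.filter
      (fun b : Fin (g + 1) → Fin N → Bool => AccS C M K b R c₀)).card : ℝ) ≤
        F.card * ((2 ^ N : ℝ) ^ (g + 1) * (mu g) ^ N) := by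
    have h5 : ((Finset.univ.filter
      (fun b : Fin (g + 1) → Fin N → Bool => AccS C M K b R c₀)).card : ℝ) ≤
        ∑ f ∈ F, ((Finset.univ.filter
          (fun b => b ∈ X C M (g + 1) N K ⟨c₀, hc₀⟩ f)).card : ℝ) := by
      rw [← Nat.cast_sum]
      exact Nat.cast_le.mpr h2
    refine h5.trans ((Finset.sum_le_sum h3).trans (le_of_eq ?_))
    rw [Finset.sum_const, nsmul_eq_mul]
  have hmu := mu_nonneg g
  have hcL : (Fintype.card (Fin (g + 1) × Fin (g + 1)) : ℝ) = (g + 1 : ℝ) ^ 2 := by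
    rw [Fintype.card_prod, Fintype.card_fin]
    push_cast
    ring
  have hcK : Fintype.card {c // c ∈ K} = K.card := Fintype.card_coe K
  rw [hcL, hcK] at h1
  calc _ ≤ (F.card * ((2 ^ N : ℝ) ^ (g + 1) * (mu g) ^ N)) * x ^ (R + 1) := by gcongr
    _ = (F.card * x ^ (R + 1)) * ((2 ^ N : ℝ) ^ (g + 1) * (mu g) ^ N) := by ring
    _ ≤ _ := by gcongr

/-- The marked configurations of a two-head automaton. -/
noncomputable def mcfgs [Fintype Q] (D J n : ℕ) : Finset (NCfg 2 Q) := by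
  classical
  exact ((Finset.univ : Finset Q) ×ˢ (Finset.univ : Finset (Fin 2)) ×ˢ Finset.range J ×ˢ
    Finset.range (n + 2)).image (fun x => ⟨x.1, fun j => if j = x.2.1 then x.2.2.1 * D else x.2.2.2⟩)

theorem mcfgs_card [Fintype Q] (D J n : ℕ) :
    (mcfgs (Q := Q) D J n).card ≤ Fintype.card Q * (2 * (J * (n + 2))) := by
  classical
  unfold mcfgs
  refine Finset.card_image_le.trans ?_
  simp [Finset.card_product]

theorem mem_mcfgs [Fintype Q] {D J n : ℕ} (hJ : n + 1 < J * D) {c : NCfg 2 Q}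
    (h2 : ∀ i, c.p i ≤ n + 1) (h3 : Mark D c) : c ∈ mcfgs (Q := Q) D J n := by
  classical
  obtain ⟨i, m, hm⟩ := h3
  unfold mcfgs
  rw [Finset.mem_image]
  refine ⟨(c.q, i, m, c.p (1 - i)), ?_, ?_⟩
  · simp only [Finset.mem_product, Finset.mem_univ, Finset.mem_range, true_and]
    constructor
    · have h4 := h2 i
      rw [hm] at h4
      by_contra hlt
      rw [not_lt] at hlt
      have : J * D ≤ D * m := by rw [Nat.mul_comm D m]; exact Nat.mul_le_mul_right _ hlt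
      omega
    · have := h2 (1 - i); omega
  · apply NCfg.ext
    · rfl
    · funext j
      by_cases hj : j = i
      · subst hj
        simp only [if_true]
        rw [hm, Nat.mul_comm]
      · simp only [hj, if_false]
        congr 1
        omega

end Pool.Agent.H38R3.MH
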